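import Pool.Agent.BLP.StmtsF

/-!
# Squad BLP, row F_FEX (continuous extension from the rationals), helper46
-/

namespace Pool.Agent.BLP.H46

open MeasureTheory ProbabilityTheory Filter Topology Finset
open scoped ENNReal

/-- uniform continuity of finitely many functions on a compact interval -/
theorem equi (b : Env) (hb : Cts b) (m M : ℤ) (R ω : ℝ) (hω : 0 < ω) :
    ∃ η : ℝ, 0 < η ∧ ∀ r, m ≤ r → r ≤ M → ∀ x y : ℝ, -R ≤ x → x ≤ R → -R ≤ y → y ≤ R →
      |x - y| ≤ η → |b r x - b r y| ≤ ω := by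
  have h : ∀ r ∈ Finset.Icc m M, ∀ᶠ η in 𝓝[>] (0 : ℝ), ∀ x y : ℝ, -R ≤ x → x ≤ R → -R ≤ y →
      y ≤ R → |x - y| ≤ η → |b r x - b r y| ≤ ω := by
    intro r _
    have h1 : UniformContinuousOn (b r) (Set.Icc (-R) R) :=
      isCompact_Icc.uniformContinuousOn_of_continuous (hb r).continuousOn
    obtain ⟨δ, hδ, h2⟩ := Metric.uniformContinuousOn_iff.1 h1 ω hω
    filter_upwards [Ioo_mem_nhdsGT hδ] with η hη x y hx hx' hy hy' hxy
    have h3 := h2 x ⟨hx, hx'⟩ y ⟨hy, hy'⟩ (by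
      rw [Real.dist_eq]
      exact lt_of_le_of_lt hxy hη.2)
    rw [Real.dist_eq] at h3
    exact h3.le
  have h4 := (Filter.eventually_all_finset (Finset.Icc m M)).2 h
  obtain ⟨η, h5, h6⟩ := (h4.and self_mem_nhdsWithin).exists
  exact ⟨η, h6, fun r hr hr' => h5 r (Finset.mem_Icc.2 ⟨hr, hr'⟩)⟩

theorem f_fex : FexStmt := by
  intro hMod b m f hb hlo hup
  -- the local modulus of continuity
  have key : ∀ (R : ℕ) (ε : ℝ), 0 < ε → ∃ η : ℝ, 0 < η ∧ ∀ s t : ℚ, -(R : ℝ) ≤ s →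
      (s : ℝ) ≤ R → -(R : ℝ) ≤ t → (t : ℝ) ≤ R → |(s : ℝ) - t| ≤ η → |f s - f t| ≤ ε := by
    intro R ε hε
    obtain ⟨M, hmM, hM⟩ := hup R
    have hk : (1 : ℝ) ≤ (M : ℝ) - m + 1 := by
      have : (m : ℝ) ≤ M := by exact_mod_cast hmM
      linarith
    have hk0 : (0 : ℝ) < (M : ℝ) - m + 1 := by linarith
    obtain ⟨η, hη, h1⟩ := equi b hb m M R (ε / ((M : ℝ) - m + 1)) (div_pos hε hk0)
    have hωε : ε / ((M : ℝ) - m + 1) ≤ ε := div_le_self hε.le hk
    have h2 : ∀ s t : ℚ, -(R : ℝ) ≤ s → s ≤ t → (t : ℝ) ≤ R → |(s : ℝ) - t| ≤ η →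
        |f s - f t| ≤ ε := by
      intro s t hs hst ht hη'
      have hst' : (s : ℝ) ≤ t := by exact_mod_cast hst
      have h3 : |b m s - b m t| ≤ ε / ((M : ℝ) - m + 1) :=
        h1 m le_rfl hmM s t hs (hst'.trans ht) (hs.trans hst') ht hη'
      have h4 : |L b m s M t| ≤ ((M : ℝ) - m + 1) * (ε / ((M : ℝ) - m + 1)) := by
        refine (hMod b hb m M _ hmM).2.2 s t hst' ?_
        intro r hr hr' x y hx hx' hy hy'
        refine h1 r hr hr' x y (hs.trans hx) (hx'.trans ht) (hs.trans hy) (hy'.trans ht) ?_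
        refine le_trans ?_ hη'
        rw [abs_le, abs_sub_comm, abs_of_nonneg (by linarith : (0 : ℝ) ≤ (t : ℝ) - s)]
        constructor <;> linarith
      rw [mul_div_cancel₀ _ hk0.ne'] at h4
      have h5 := hlo s t hst
      have h6 := hM s t hs hst ht
      rw [abs_le] at h3 h4 ⊢
      constructor <;> linarith [h3.1, h3.2, h4.1, h4.2]
    refine ⟨η, hη, ?_⟩
    intro s t hs hs' ht ht' hst
    rcases le_total s t with h | h
    · exact h2 s t hs h ht' hst
    · rw [abs_sub_comm]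
      exact h2 t s ht h hs' (by rw [abs_sub_comm]; exact hst)
  have di : IsDenseInducing ((↑) : ℚ → ℝ) := Rat.isDenseEmbedding_coe_real.isDenseInducing
  -- limits along the rationals
  have hlim : ∀ t : ℝ, ∃ c, Tendsto f (comap ((↑) : ℚ → ℝ) (𝓝 t)) (𝓝 c) := by
    intro t
    have hc : Cauchy (map f (comap ((↑) : ℚ → ℝ) (𝓝 t))) := by
      have := di.comap_nhds_neBot t
      rw [Metric.cauchy_iff]
      refine ⟨inferInstance, fun ε hε => ?_⟩
      obtain ⟨R, hR⟩ := exists_nat_ge (|t| + 1)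
      obtain ⟨η, hη, h1⟩ := key R (ε / 2) (half_pos hε)
      have hd : 0 < min (η / 2) 1 := lt_min (half_pos hη) one_pos
      refine ⟨f '' (((↑) : ℚ → ℝ) ⁻¹' Metric.ball t (min (η / 2) 1)),
        image_mem_map (preimage_mem_comap (Metric.ball_mem_nhds t hd)), ?_⟩
      rintro _ ⟨x, hx, rfl⟩ _ ⟨y, hy, rfl⟩
      rw [Set.mem_preimage, Metric.mem_ball, Real.dist_eq] at hx hy
      have hx1 := (lt_min_iff.1 hx).1
      have hx2 := (lt_min_iff.1 hx).2
      have hy1 := (lt_min_iff.1 hy).1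
      have hy2 := (lt_min_iff.1 hy).2
      have ht1 := neg_abs_le t
      have ht2 := le_abs_self t
      rw [abs_lt] at hx1 hx2 hy1 hy2
      rw [Real.dist_eq]
      refine lt_of_le_of_lt (h1 x y ?_ ?_ ?_ ?_ ?_) (half_lt_self hε)
      · linarith [hx2.1]
      · linarith [hx2.2]
      · linarith [hy2.1]
      · linarith [hy2.2]
      · rw [abs_le]
        constructor <;> linarith [hx1.1, hx1.2, hy1.1, hy1.2]
    exact CompleteSpace.complete hc
  refine ⟨di.extend f, di.continuous_extend hlim, fun t => ?_⟩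
  refine di.extend_eq_at ?_
  rw [Metric.continuousAt_iff]
  intro ε hε
  obtain ⟨R, hR⟩ := exists_nat_ge (|(t : ℝ)| + 1)
  obtain ⟨η, hη, h1⟩ := key R (ε / 2) (half_pos hε)
  refine ⟨min η 1, lt_min hη one_pos, fun {x} hx => ?_⟩
  rw [Rat.dist_eq] at hx
  have hx1 := (lt_min_iff.1 hx).1
  have hx2 := (lt_min_iff.1 hx).2
  have ht1 := neg_abs_le (t : ℝ)
  have ht2 := le_abs_self (t : ℝ)
  rw [abs_lt] at hx2
  rw [Real.dist_eq]
  refine lt_of_le_of_lt (h1 x t ?_ ?_ ?_ ?_ hx1.le) (half_lt_self hε)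
  · linarith [hx2.1]
  · linarith [hx2.2]
  · linarith
  · linarith

end Pool.Agent.BLP.H46
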